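import Pool.Agent.H.MP_4045d2_lc.A

set_option autoImplicit false

namespace Pool.Agent.H.MP_08a145_lc

open Set Filter Topology MeasureTheory TopologicalSpace Function Pool.Agent.H.MP_4045d2_lc

variable {X : Type} [MetricSpace X] [CompactSpace X]

theorem decomp2 (G : Set C(X, X)) (hG : ∀ f ∈ G, Bijective f) {r : ℝ → C(X, X)} (rc : Continuous r)
    (radd : ∀ a b x, r (a + b) x = r a (r b x)) (rG : ∀ a, r a ∈ G) {x0 : X} (hx : r 1 x0 ≠ x0)
    [MeasurableSpace G] [BorelSpace G] :
    ∃ B : Set G, IsMeagre Bᶜ ∧ MeasurableSet B ∧ ∃ μ : Measure G, IsProbabilityMeasure μ ∧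
      ∀ g h : G, μ {x : G | ∃ b ∈ B,
        (x : C(X, X)) = (g : C(X, X)).comp ((b : C(X, X)).comp (h : C(X, X)))} = 0 := by
  have : Nonempty G := ⟨⟨_, rG 0⟩⟩
  let U : ℕ → Set C(X, X) := fun n =>
    Metric.ball (denseSeq G n.unpair.1) (1 / (n + 1) / (4 * (2 ^ n).factorial))
  have hU : ∀ m, IsOpen (⋃ n ≥ m, U n) := fun m => isOpen_biUnion fun _ _ => Metric.isOpen_ball
  have rm : Measurable fun t => (⟨r t, rG t⟩ : G) := (rc.subtype_mk _).measurable
  have : IsProbabilityMeasure (volume.restrict (Icc (0 : ℝ) 1)) := ⟨by simp⟩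
  refine ⟨⋂ m, Subtype.val ⁻¹' ⋃ n ≥ m, U n, ?_,
    .iInter fun m => ((hU m).preimage continuous_subtype_val).measurableSet,
    (volume.restrict (Icc 0 1)).map fun t => ⟨r t, rG t⟩,
    Measure.isProbabilityMeasure_map rm.aemeasurable, fun g h => ?_⟩
  · rw [IsMeagre, compl_compl, countable_iInter_mem]
    refine fun m => residual_of_dense_open ((hU m).preimage continuous_subtype_val)
      (Dense.mono ?_ (denseRange_denseSeq G))
    rintro _ ⟨i, rfl⟩
    exact mem_biUnion (Nat.right_le_pair i m)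
      (by simp only [U, Nat.unpair_pair]; exact Metric.mem_ball_self (by positivity))
  · obtain ⟨k, k1, k2⟩ := inv (hG _ g.2)
    obtain ⟨h', h1, h2⟩ := inv (hG _ h.2)
    obtain ⟨N, hN⟩ := exists_nat_one_div_lt (dist_pos.2 (k2.injective.ne hx))
    have c : Continuous fun x : G => k.comp (x.1.comp h') := by fun_prop
    refine measure_mono_null (t := ⋂ m, (fun x : G => k.comp (x.1.comp h')) ⁻¹' ⋃ n ≥ m, U n) ?_ ?_
    · rintro x ⟨b, hb, e⟩
      have : k.comp (x.1.comp h') = b := by ext y; simp [e, k1 _, h2 _]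
      simpa [this] using hb
    rw [Measure.map_apply rm (.iInter fun m => ((hU m).preimage c).measurableSet),
      Measure.restrict_apply' measurableSet_Icc]
    refine measure_mono_null (fun t ht => ?_) (measure_setOf_frequently_eq_zero
      (p := fun n t => N ≤ n ∧ k.comp ((r t).comp h') ∈ U n ∧ t ∈ Icc 0 1) (ne_top_of_le_ne_top
        (b := ∑' n : ℕ, 2 * 2⁻¹ ^ n) (by
          rw [ENNReal.tsum_mul_left, ENNReal.tsum_geometric_two]
          exact ENNReal.mul_ne_top (by simp) (by simp))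
        (ENNReal.tsum_le_tsum fun n => ?_)))
    · refine Frequently.mp (p := fun n => k.comp ((r t).comp h') ∈ U n) ?_
        ((eventually_ge_atTop N).mono fun n a b => ⟨a, b, ht.2⟩)
      simpa [frequently_atTop] using ht.1
    rcases lt_or_ge n N with hn | hn
    · simp [hn.not_ge]
    have := est rc radd (fun a => (hG _ (rG a)).2) (ε := 1 / (n + 1)) (by positivity) k h'
      (denseSeq G n.unpair.1) h1.surjective
      ⟨x0, (Nat.one_div_le_one_div hn).trans hN.le⟩ (2 ^ n)
    rw [← ENNReal.inv_pow, ← div_eq_mul_inv, ENNReal.le_div_iff_mul_le (by simp) (by simp), mul_comm]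
    rw [Nat.cast_pow, Nat.cast_ofNat] at this
    simp only [hn, true_and]
    exact this

/-- The flow `x ↦ x ^ exp a` in every coordinate of the cube. -/
noncomputable def flow : C(ℝ × (ℕ → Icc (0 : ℝ) 1), ℕ → Icc (0 : ℝ) 1) :=
  ⟨fun p i => ⟨(p.2 i).1 ^ Real.exp p.1, Real.rpow_nonneg (p.2 i).2.1 _,
    Real.rpow_le_one (p.2 i).2.1 (p.2 i).2.2 (Real.exp_pos _).le⟩,
    continuous_pi fun i => Continuous.subtype_mk (Continuous.rpow (by fun_prop) (by fun_prop)
      fun p => .inr (Real.exp_pos _)) _⟩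

theorem flow_add (a b : ℝ) (x : ℕ → Icc (0 : ℝ) 1) :
    flow.curry (a + b) x = flow.curry a (flow.curry b x) := by
  ext i
  change (x i).1 ^ Real.exp (a + b) = ((x i).1 ^ Real.exp b) ^ Real.exp a
  rw [← Real.rpow_mul (x i).2.1, Real.exp_add, mul_comm]

theorem flow_zero (x : ℕ → Icc (0 : ℝ) 1) : flow.curry 0 x = x := by
  ext i
  change (x i).1 ^ Real.exp 0 = (x i).1
  simp

theorem flow_bij (a : ℝ) : Bijective (flow.curry a) :=
  bijective_iff_has_inverse.2 ⟨flow.curry (-a), fun x => by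
    rw [← flow_add, neg_add_cancel, flow_zero],
    fun x => by rw [← flow_add, add_neg_cancel, flow_zero]⟩

theorem flow_ne : flow.curry 1 (fun _ => ⟨1 / 2, by norm_num⟩) ≠ fun _ => ⟨1 / 2, by norm_num⟩ := by
  intro h
  have h1 : (1 / 2 : ℝ) ^ Real.exp 1 = 1 / 2 := congrArg Subtype.val (congrFun h 0)
  have := Real.rpow_lt_rpow_of_exponent_gt (x := 1 / 2) (by norm_num) (by norm_num)
    (Real.one_lt_exp_iff.2 one_pos)
  rw [h1] at this; simp at this

end Pool.Agent.H.MP_08a145_lc
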